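import Pool.Agent.PLX.StmtsB

/-!
Squad PLX (MP_1fc801_co), row GAP: generalized progressions with arbitrary steps and sides.
-/

set_option autoImplicit false

namespace Pool.Agent.PLX.H94

open Module Pool.Agent.PLX

section gap

variable {d : ℕ}

/-- the weights -/
noncomputable def wt (N : Fin d → ℕ) (i : Fin d) : ℝ := if N i = 0 then 2 else ((N i : ℝ))⁻¹

theorem wt_pos (N : Fin d → ℕ) (i : Fin d) : 0 < wt N i := by
  unfold wt
  split_ifs with h
  · norm_num
  · have : (0 : ℝ) < (N i : ℝ) := by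
      have := Nat.pos_of_ne_zero h
      exact_mod_cast this
    exact inv_pos.2 this

/-- the size map -/
noncomputable def fm (N : Fin d → ℕ) : (Fin d → ℚ) →+ (Fin d → ℝ) where
  toFun := fun x i => wt N i * (x i : ℝ)
  map_zero' := by
    ext i
    simp
  map_add' := fun x y => by
    ext i
    simp only [Pi.add_apply, Rat.cast_add]
    ring

/-- integer vectors -/
def iv : (Fin d → ℤ) →+ (Fin d → ℚ) where
  toFun := fun x i => (x i : ℚ)
  map_zero' := by
    ext i
    simp
  map_add' := fun x y => by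
    ext i
    simp

theorem iv_inj : Function.Injective (iv (d := d)) := by
  intro x y h
  ext i
  have h1 : ((x i : ℤ) : ℚ) = ((y i : ℤ) : ℚ) := congrFun h i
  exact_mod_cast h1

/-- the map to the plane -/
noncomputable def ph (g : Fin d → ℂ) : (Fin d → ℚ) →+ ℂ where
  toFun := fun x => ∑ i, (x i : ℂ) * g i
  map_zero' := by simp
  map_add' := fun x y => by
    rw [← Finset.sum_add_distrib]
    refine Finset.sum_congr rfl fun i _ => ?_
    simp only [Pi.add_apply, Rat.cast_add]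
    ring

theorem norm_iv (N : Fin d → ℕ) (x : Fin d → ℤ) {r : ℝ} (hr : 0 ≤ r) :
    ‖fm N (iv x)‖ ≤ r ↔ ∀ i, wt N i * |(x i : ℝ)| ≤ r := by
  rw [pi_norm_le_iff_of_nonneg hr]
  refine forall_congr' fun i => ?_
  have e : fm N (iv x) i = wt N i * (x i : ℝ) := by
    show wt N i * (((x i : ℤ) : ℚ) : ℝ) = wt N i * (x i : ℝ)
    rw [Rat.cast_intCast]
  rw [e, Real.norm_eq_abs, abs_mul, abs_of_pos (wt_pos N i)]

theorem wt_le_one (N : Fin d → ℕ) (i : Fin d) (n : ℤ) : wt N i * |(n : ℝ)| ≤ 1 ↔ |n| ≤ (N i : ℤ) := by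
  unfold wt
  split_ifs with h
  · rw [h]
    constructor
    · intro h1
      by_contra h2
      push Not at h2
      have h3 : (1 : ℤ) ≤ |n| := by
        have : (0 : ℤ) < |n| := by exact_mod_cast h2
        omega
      have h4 : (1 : ℝ) ≤ |(n : ℝ)| := by
        rw [← Int.cast_abs]
        exact_mod_cast h3
      linarith
    · intro h1
      have h2 : |n| = 0 := le_antisymm (by exact_mod_cast h1) (abs_nonneg n)
      have h3 : n = 0 := abs_eq_zero.1 h2
      rw [h3]
      norm_num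
  · have hp : (0 : ℝ) < (N i : ℝ) := by
      have := Nat.pos_of_ne_zero h
      exact_mod_cast this
    rw [inv_mul_le_iff₀ hp, mul_one, ← Int.cast_abs]
    exact_mod_cast Iff.rfl

theorem dsc_fm (N : Fin d → ℕ) : Dsc (fm N) (iv (d := d)).range := by
  classical
  intro r
  rcases lt_or_ge r 0 with hr | hr
  · refine Set.Finite.subset Set.finite_empty ?_
    rintro x ⟨-, hx⟩
    exact absurd (norm_nonneg (fm N x)) (by linarith)
  · refine Set.Finite.subset (Set.Finite.image (iv (d := d))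
      (Fintype.piFinset fun i => Finset.Icc (-(⌈r / wt N i⌉)) (⌈r / wt N i⌉)).finite_toSet) ?_
    rintro x ⟨⟨y, rfl⟩, hx⟩
    refine ⟨y, ?_, rfl⟩
    rw [Finset.mem_coe, Fintype.mem_piFinset]
    intro i
    have h1 := (norm_iv N y hr).1 hx i
    have h2 : |(y i : ℝ)| ≤ r / wt N i := by
      rw [le_div_iff₀ (wt_pos N i), mul_comm]
      exact h1
    have h3 : |(y i : ℝ)| ≤ (⌈r / wt N i⌉ : ℝ) := h2.trans (Int.le_ceil _)
    have h4 : |y i| ≤ ⌈r / wt N i⌉ := by
      rw [← Int.cast_abs] at h3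
      exact_mod_cast h3
    rw [Finset.mem_Icc]
    exact abs_le.1 h4

theorem cnt_fm (N : Fin d → ℕ) : cnt (fm N) (iv (d := d)).range 1 = ∏ i, (2 * N i + 1) := by
  classical
  have h1 : bl (fm N) (iv (d := d)).range 1
      = (Fintype.piFinset fun i => Finset.Icc (-(N i : ℤ)) (N i)).image (iv (d := d)) := by
    ext x
    rw [mem_bl (dsc_fm N), Finset.mem_image]
    constructor
    · rintro ⟨⟨y, rfl⟩, hx⟩
      refine ⟨y, ?_, rfl⟩
      rw [Fintype.mem_piFinset]
      intro i
      rw [Finset.mem_Icc]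
      exact abs_le.1 ((wt_le_one N i (y i)).1 ((norm_iv N y zero_le_one).1 hx i))
    · rintro ⟨y, hy, rfl⟩
      refine ⟨⟨y, rfl⟩, (norm_iv N y zero_le_one).2 fun i => ?_⟩
      rw [Fintype.mem_piFinset] at hy
      exact (wt_le_one N i (y i)).2 (abs_le.2 (Finset.mem_Icc.1 (hy i)))
  unfold cnt
  rw [h1, Finset.card_image_of_injective _ iv_inj, Fintype.card_piFinset]
  refine Finset.prod_congr rfl fun i _ => ?_
  rw [Int.card_Icc]
  omega

end gap

/-- **Row GAP.** -/
theorem gap (ma2 : Ma2Stmt) : GapStmt := by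
  intro d K
  obtain ⟨ε, c, a, hε, hc, H⟩ := ma2 d K
  refine ⟨ε, c, a, hε, hc, ?_⟩
  intro N g P p₀ hP hx hcard hnd
  refine H (Fin d → ℚ) (Fin d → ℝ) (ph g) (fm N) (iv (d := d)).range P p₀ (dsc_fm N)
    inferInstance ?_ hP ?_ ?_ hnd
  · refine (Submodule.finrank_le _).trans (le_of_eq ?_)
    rw [Module.finrank_fin_fun]
  · intro p hp
    obtain ⟨x, h1, h2⟩ := hx p hp
    refine ⟨iv x, ⟨x, rfl⟩, (norm_iv N x zero_le_one).2 fun i =>
      (wt_le_one N i (x i)).2 (h1 i), ?_⟩
    rw [h2, add_sub_cancel_left]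
    show ∑ i, ((((x i : ℤ) : ℚ)) : ℂ) * g i = ∑ i, (x i : ℂ) * g i
    refine Finset.sum_congr rfl fun i _ => ?_
    rw [Rat.cast_intCast]
  · rw [cnt_fm]
    push_cast
    exact hcard

end Pool.Agent.PLX.H94
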