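import Pool.Agent.PLX.StmtsA

/-!
Squad PLX (MP_1fc801_co), row FUN: one functional implies dimension one.
-/

set_option autoImplicit false

namespace Pool.Agent.PLX.H94

open Module Pool.Agent.PLX

/-- a functional over a division ring which vanishes at `x` -/
theorem key (R : Type) [DivisionRing R] (B : Type) [AddCommGroup B] [Module R B] (x : B)
    (h : ∃ b : B, ∀ r : R, r • x ≠ b) :
    ∃ g : B →+ R, (∀ (r : R) (b : B), g (r • b) = r * g b) ∧ g x = 0 ∧ g ≠ 0 := by
  have hlt : Submodule.span R {x} < ⊤ := by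
    rw [lt_top_iff_ne_top]
    intro htop
    obtain ⟨b, hb⟩ := h
    have h1 : b ∈ Submodule.span R {x} := by
      rw [htop]
      trivial
    obtain ⟨r, hr⟩ := Submodule.mem_span_singleton.1 h1
    exact hb r hr
  obtain ⟨g, hg, hker⟩ := Submodule.exists_le_ker_of_lt_top _ hlt
  refine ⟨g.toAddMonoidHom, fun r b => ?_, ?_, fun h0 => hg ?_⟩
  · show g (r • b) = r * g b
    rw [map_smul, smul_eq_mul]
  · exact LinearMap.mem_ker.1 (hker (Submodule.mem_span_singleton_self x))
  · ext b
    exact DFunLike.congr_fun h0 b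

/-- **Row FUN.** -/
theorem fun' : FunStmt := by
  intro B _ _ Q a x hB hQ hax hinj hψ
  set R : Subalgebra ℚ (Module.End ℚ B × ℝ) := Algebra.adjoin ℚ Q with hR
  have hE : ∀ q ∈ R, Eig a q := eig_adjoin hQ
  -- the orbit map
  let o : R →ₗ[ℚ] B :=
    { toFun := fun r => r.1.1 x
      map_add' := fun r s => rfl
      map_smul' := fun c r => rfl }
  have ho : ∀ r : R, o r = r.1.1 x := fun r => rfl
  have hoinj : Function.Injective o := by
    rw [← LinearMap.ker_eq_bot, LinearMap.ker_eq_bot']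
    intro r hr
    have h1 : a (r.1.1 x) = r.1.2 * a x := hE r.1 r.2 x
    rw [ho] at hr
    rw [hr, map_zero] at h1
    have h2 : r.1.2 = 0 := (mul_eq_zero.1 h1.symm).resolve_right hax
    exact Subtype.ext (hinj r.1 r.2 h2)
  haveI hfin : FiniteDimensional ℚ R := FiniteDimensional.of_injective o hoinj
  haveI hnt : Nontrivial R := by
    refine ⟨⟨1, 0, fun h => ?_⟩⟩
    have h1 : (1 : R).1.2 = (0 : R).1.2 := by rw [h]
    have h2 : (1 : ℝ) = 0 := h1
    exact one_ne_zero h2
  haveI hnz : NoZeroDivisors R := by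
    refine ⟨fun {r s} h => ?_⟩
    have h1 : (r * s).1.2 = 0 := by
      rw [h]
      rfl
    have h2 : r.1.2 * s.1.2 = 0 := h1
    rcases mul_eq_zero.1 h2 with h3 | h3
    · exact Or.inl (Subtype.ext (hinj r.1 r.2 h3))
    · exact Or.inr (Subtype.ext (hinj s.1 s.2 h3))
  haveI hdom : IsDomain R := NoZeroDivisors.to_isDomain R
  -- the second projection
  let p : R →ₐ[ℚ] ℝ := (AlgHom.snd ℚ (Module.End ℚ B) ℝ).comp R.val
  have hp : ∀ r : R, p r = r.1.2 := fun r => rfl
  have hpinj : Function.Injective p.toLinearMap := by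
    rw [← LinearMap.ker_eq_bot, LinearMap.ker_eq_bot']
    intro r hr
    exact Subtype.ext (hinj r.1 r.2 hr)
  have hrange : p.range = Algebra.adjoin ℚ (Prod.snd '' Q) := by
    have h1 : p.range = R.map (AlgHom.snd ℚ (Module.End ℚ B) ℝ) := by
      ext y
      constructor
      · rintro ⟨r, hr⟩
        exact ⟨r.1, r.2, hr⟩
      · rintro ⟨r, hr, hy⟩
        exact ⟨⟨r, hr⟩, hy⟩
    rw [h1, hR, AlgHom.map_adjoin]
    rfl
  have hfinR : finrank ℚ (Algebra.adjoin ℚ (Prod.snd '' Q)) = finrank ℚ R := by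
    rw [← hrange, ← Subalgebra.finrank_toSubmodule]
    have h1 : Subalgebra.toSubmodule p.range = LinearMap.range p.toLinearMap := by
      ext y
      rfl
    rw [h1]
    exact LinearMap.finrank_range_of_inj hpinj
  rw [hfinR]
  by_cases hsur : ∀ b : B, ∃ r : R, o r = b
  · exact LinearEquiv.finrank_eq (LinearEquiv.ofBijective o ⟨hoinj, hsur⟩)
  · exfalso
    push Not at hsur
    obtain ⟨b, hb⟩ := hsur
    letI hdr : DivisionRing R := divisionRingOfFiniteDimensional ℚ R
    letI hmod : Module R B := Module.compHom B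
      ((RingHom.fst (Module.End ℚ B) ℝ).comp (R.val : R →+* (Module.End ℚ B × ℝ)))
    obtain ⟨g, hg1, hg2, hg3⟩ := key R B x ⟨b, fun r => hb r⟩
    let ψ0 : B →+ ℝ :=
      { toFun := fun y => (g y).1.2
        map_zero' := by
          rw [map_zero]
          rfl
        map_add' := fun y z => by
          rw [map_add]
          rfl }
    have hψ0 : ∀ y, ψ0 y = (g y).1.2 := fun y => rfl
    let ψ : B →ₗ[ℚ] ℝ := ψ0.toRatLinearMap
    have hψ' : ∀ y, ψ y = (g y).1.2 := fun y => rfl
    have h0 : ψ = 0 := by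
      refine hψ ψ ?_ ?_
      · intro q hq y
        have hqR : q ∈ R := Algebra.subset_adjoin hq
        have h1 := hg1 ⟨q, hqR⟩ y
        have h2 : (⟨q, hqR⟩ : R) • y = q.1 y := rfl
        rw [h2] at h1
        rw [hψ', hψ', h1]
        rfl
      · rw [hψ', hg2]
        rfl
    apply hg3
    refine DFunLike.ext _ _ fun y => Subtype.ext ?_
    have h1 : (g y).1.2 = 0 := by
      rw [← hψ', h0]
      rfl
    exact hinj (g y).1 (g y).2 h1

end Pool.Agent.PLX.H94
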